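import Pool.Agent.Helper51.AJ.St
import Pool.Agent.Helper51.AJ.Basic

/-!
# Project AJ (MP_d63854_co), module DSB: disjoint unions are excluded minors
-/

set_option autoImplicit false

namespace Pool.Agent.Helper38.AJ

open Pool.Agent.Helper51.AJ

/-- a property which is kept by edges is constant on a connected graph -/
private theorem reach_prop {V : Type} {G : SimpleGraph V} {P : V → Prop}
    (hP : ∀ a b, G.Adj a b → P a → P b) {u v : V} (h : G.Reachable u v) : P u → P v := by
  obtain ⟨p⟩ := h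
  induction p with
  | nil => exact id
  | cons hadj _ ih => exact fun hu => ih (hP _ _ hadj hu)

/-- a connected set is on one side -/
private theorem side {V : Type} {G : SimpleGraph V} {A : Set V}
    (hA : ∀ a ∈ A, ∀ b ∉ A, ¬ G.Adj a b) {S : Set V} (hS : (G.induce S).Connected) :
    S ⊆ A ∨ S ⊆ Aᶜ := by
  obtain ⟨x⟩ := hS.nonempty
  by_cases hx : x.1 ∈ A
  · left
    intro y hy
    exact reach_prop (P := fun z : S => z.1 ∈ A) (fun a b hab ha => by
      by_contra hb
      exact hA a.1 ha b.1 hb hab) (hS.preconnected x ⟨y, hy⟩) hx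
  · right
    intro y hy
    exact reach_prop (P := fun z : S => z.1 ∉ A) (fun a b hab ha hb =>
      hA b.1 hb a.1 ha hab.symm) (hS.preconnected x ⟨y, hy⟩) hx

private theorem split_minor (hT : StTrn) {W V : Type} [Nonempty W] {H : SimpleGraph W}
    {G : SimpleGraph V} (hH : H.Preconnected) {A : Set V} (hA : ∀ a ∈ A, ∀ b ∉ A, ¬ G.Adj a b)
    (h : IsMinor H G) : IsMinor H (G.induce A) ∨ IsMinor H (G.induce Aᶜ) := by
  obtain ⟨φ, h1, h2, h3⟩ := h
  obtain ⟨w₀⟩ := ‹Nonempty W›
  rcases side hA (h1 w₀) with h | h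
  · left
    rw [hT.2 W V H G A]
    refine ⟨φ, fun w => ?_, h1, h2, h3⟩
    refine reach_prop (P := fun w => φ w ⊆ A) (fun a b hab ha => ?_) (hH w₀ w) h
    rcases side hA (h1 b) with hb | hb
    · exact hb
    · obtain ⟨x, hx, y, hy, hxy⟩ := h3 a b hab
      exact absurd hxy (hA x (ha hx) y (hb hy))
  · right
    rw [hT.2 W V H G Aᶜ]
    refine ⟨φ, fun w => ?_, h1, h2, h3⟩
    refine reach_prop (P := fun w => φ w ⊆ Aᶜ) (fun a b hab ha => ?_) (hH w₀ w) h
    rcases side hA (h1 b) with hb | hb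
    · obtain ⟨x, hx, y, hy, hxy⟩ := h3 a b hab
      exact absurd hxy.symm (hA y (hb hy) x (ha hx))
    · exact hb

private theorem k33_pre : (completeBipartiteGraph (Fin 3) (Fin 3)).Preconnected := by
  have h1 : ∀ a b : Fin 3, (completeBipartiteGraph (Fin 3) (Fin 3)).Adj (Sum.inl a) (Sum.inr b) := by
    intro a b
    simp
  intro x y
  rcases x with x | x <;> rcases y with y | y
  · exact (h1 x 0).reachable.trans (h1 y 0).symm.reachable
  · exact (h1 x y).reachable
  · exact (h1 y x).symm.reachable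
  · exact (h1 0 x).symm.reachable.trans (h1 0 y).reachable

/-- fact (0) -/
private theorem planar_split (hT : StTrn) {V : Type} {G : SimpleGraph V} {A : Set V}
    (hA : ∀ a ∈ A, ∀ b ∉ A, ¬ G.Adj a b) (h1 : Planar (G.induce A)) (h2 : Planar (G.induce Aᶜ)) :
    Planar G := by
  constructor
  · intro h
    rcases split_minor hT SimpleGraph.preconnected_top hA h with h | h
    · exact h1.1 h
    · exact h2.1 h
  · intro h
    rcases split_minor hT k33_pre hA h with h | h
    · exact h1.2 h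
    · exact h2.2 h

private theorem minor_card {W V : Type} [Finite V] {H : SimpleGraph W} {G : SimpleGraph V}
    (h : IsMinor H G) : Nat.card W ≤ Nat.card V := by
  obtain ⟨φ, h1, h2, -⟩ := h
  have h3 : ∀ w, ∃ x, x ∈ φ w := fun w => con_nonempty (h1 w)
  choose f hf using h3
  apply Nat.card_le_card_of_injective f
  intro a b hab
  by_contra hne
  exact Set.disjoint_left.1 (h2 a b hne) (hf a) (hab ▸ hf b)

private theorem half (hT : StTrn) (hJ : StJnm) {W V : Type} [Finite W] [Finite V]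
    {H : SimpleGraph W} {L : SimpleGraph V} {S : Set W} (hS : ∀ a ∈ S, ∀ b ∉ S, ¬ H.Adj a b)
    (h1 : Planar (H.induce S)) (h2 : IsMinor (H.induce Sᶜ) L)
    (hL : ∀ (W' : Type) [Finite W'] (H' : SimpleGraph W'), IsMinor H' L →
      ¬ Nonempty (H' ≃g L) → Planar H') : Apex H := by
  by_cases hne : ∃ w₀, w₀ ∉ S
  · obtain ⟨w₀, hw₀⟩ := hne
    right
    refine ⟨w₀, ?_⟩
    set A' : Set ({w₀}ᶜ : Set W) := {x | x.1 ∈ S} with hA'
    have hno : ∀ a ∈ A', ∀ b ∉ A', ¬ (H.induce {w₀}ᶜ).Adj a b :=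
      fun a ha b hb hab => hS a.1 ha b.1 hb hab
    apply planar_split hT hno
    · -- a minor of `H.induce S`
      refine hJ.2.2 _ _ ((H.induce {w₀}ᶜ).induce A') (H.induce S) ?_ h1
      exact isMinor_of_hom (fun x => ⟨x.1.1, x.2⟩)
        (fun a b hab => by
          have h3 : a.1.1 = b.1.1 := congrArg (fun t : S => (t : W)) hab
          exact Subtype.ext (Subtype.ext h3)) fun a b hab => hab
    · have hmin : IsMinor ((H.induce {w₀}ᶜ).induce A'ᶜ) (H.induce Sᶜ) :=
        isMinor_of_hom (fun x => ⟨x.1.1, x.2⟩)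
          (fun a b hab => by
            have h3 : a.1.1 = b.1.1 := congrArg (fun t : (Sᶜ : Set W) => (t : W)) hab
            exact Subtype.ext (Subtype.ext h3)) fun a b hab => hab
      apply hL _ _ (hT.1 _ _ _ _ _ _ hmin h2)
      rintro ⟨e⟩
      have c1 : Nat.card (A'ᶜ : Set ({w₀}ᶜ : Set W)) = Nat.card V := Nat.card_congr e.toEquiv
      have c2 := minor_card h2
      have c3 : Nat.card (Option (A'ᶜ : Set ({w₀}ᶜ : Set W))) ≤ Nat.card (Sᶜ : Set W) := by
        apply Nat.card_le_card_of_injective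
          (fun o : Option (A'ᶜ : Set ({w₀}ᶜ : Set W)) => match o with
            | none => (⟨w₀, hw₀⟩ : (Sᶜ : Set W))
            | some x => ⟨x.1.1, x.2⟩)
        intro a b hab
        rcases a with _ | a <;> rcases b with _ | b
        · rfl
        · exact absurd (congrArg Subtype.val hab).symm b.1.2
        · exact absurd (congrArg Subtype.val hab) a.1.2
        · have h3 : a.1.1 = b.1.1 := congrArg (fun t : (Sᶜ : Set W) => (t : W)) hab
          exact congrArg some (Subtype.ext (Subtype.ext h3))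
      rw [Finite.card_option] at c3
      omega
  · push Not at hne
    left
    apply planar_split hT hS h1
    have hemp : ∀ {X : Type} [Nonempty X] (F : SimpleGraph X), ¬ IsMinor F (H.induce Sᶜ) := by
      rintro X ⟨x⟩ F ⟨φ, h, -⟩
      obtain ⟨y, -⟩ := con_nonempty (h x)
      exact y.2 (hne y.1)
    exact ⟨hemp _, hemp _⟩

private theorem not_apex (hJ : StJnm) {U V : Type} {K : SimpleGraph U} {L : SimpleGraph V}
    (hK : ¬ Planar K) (hL : ¬ Planar L) : ¬ Apex (K ⊕g L) := by
  rintro (h | ⟨v, h⟩)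
  · exact hK (hJ.2.2 _ _ K (K ⊕g L) (isMinor_of_hom Sum.inl Sum.inl_injective
      fun a b hab => by simpa using hab) h)
  · rcases v with v | v
    · refine hL (hJ.2.2 _ _ L _ (isMinor_of_hom (fun x => ⟨Sum.inr x, by simp⟩) ?_ ?_) h)
      · intro a b hab
        exact Sum.inr_injective (congrArg Subtype.val hab)
      · intro a b hab
        show (K ⊕g L).Adj (Sum.inr a) (Sum.inr b)
        simpa using hab
    · refine hK (hJ.2.2 _ _ K _ (isMinor_of_hom (fun x => ⟨Sum.inl x, by simp⟩) ?_ ?_) h)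
      · intro a b hab
        exact Sum.inl_injective (congrArg Subtype.val hab)
      · intro a b hab
        show (K ⊕g L).Adj (Sum.inl a) (Sum.inl b)
        simpa using hab

private theorem left_minor {U V : Type} (K : SimpleGraph U) (L : SimpleGraph V) :
    IsMinor ((K ⊕g L).induce (Set.range Sum.inl)) K := by
  have h0 : ∀ x : (Set.range (Sum.inl : U → U ⊕ V)), ∃ u, Sum.inl u = x.1 := fun x => x.2
  choose f hf using h0
  apply isMinor_of_hom f
  · intro a b hab
    apply Subtype.ext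
    rw [← hf a, ← hf b, hab]
  · intro a b hab
    have h1 : (K ⊕g L).Adj a.1 b.1 := hab
    rw [← hf a, ← hf b] at h1
    simpa using h1

private theorem right_minor {U V : Type} (K : SimpleGraph U) (L : SimpleGraph V) :
    IsMinor ((K ⊕g L).induce (Set.range Sum.inl)ᶜ) L := by
  have h0 : ∀ x : ((Set.range (Sum.inl : U → U ⊕ V))ᶜ : Set (U ⊕ V)), ∃ v, Sum.inr v = x.1 := by
    rintro ⟨x | x, hx⟩
    · exact absurd ⟨x, rfl⟩ hx
    · exact ⟨x, rfl⟩
  choose f hf using h0
  apply isMinor_of_hom f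
  · intro a b hab
    apply Subtype.ext
    rw [← hf a, ← hf b, hab]
  · intro a b hab
    have h1 : (K ⊕g L).Adj a.1 b.1 := hab
    rw [← hf a, ← hf b] at h1
    simpa using h1

open Classical in
private theorem glue {W U V : Type} {H : SimpleGraph W} {K : SimpleGraph U} {L : SimpleGraph V}
    {S : Set W} (hS : ∀ a ∈ S, ∀ b ∉ S, ¬ H.Adj a b) (e₁ : H.induce S ≃g K)
    (e₂ : H.induce Sᶜ ≃g L) : Nonempty (H ≃g K ⊕g L) := by
  let e : S ⊕ (Sᶜ : Set W) ≃ W := Equiv.Set.sumCompl S
  have he : ∀ x y : S ⊕ (Sᶜ : Set W),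
      (K ⊕g L).Adj (Sum.map e₁ e₂ x) (Sum.map e₁ e₂ y) ↔ H.Adj (e x) (e y) := by
    intro x y
    rcases x with x | x <;> rcases y with y | y
    · have h1 : K.Adj (e₁ x) (e₁ y) ↔ H.Adj x.1 y.1 := e₁.map_adj_iff
      simpa [e] using h1
    · have h1 : ¬ H.Adj x.1 y.1 := hS x.1 x.2 y.1 y.2
      simpa [e] using h1
    · have h1 : ¬ H.Adj x.1 y.1 := fun h => hS y.1 y.2 x.1 x.2 h.symm
      simpa [e] using h1
    · have h1 : L.Adj (e₂ x) (e₂ y) ↔ H.Adj x.1 y.1 := e₂.map_adj_iff
      simpa [e] using h1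
  refine ⟨⟨e.symm.trans (Equiv.sumCongr e₁.toEquiv e₂.toEquiv), ?_⟩⟩
  intro a b
  have h1 := he (e.symm a) (e.symm b)
  rw [e.apply_symm_apply, e.apply_symm_apply] at h1
  exact h1

theorem hDSB (h1 : StTrn) (h2 : StJnm) : StDsb := by
  intro U V _ _ K L hK hL hall
  refine ⟨not_apex h2 hK hL, ?_⟩
  intro W _ H hH hiso
  obtain ⟨φ, m1, m2, m3⟩ := hH
  set A : Set (U ⊕ V) := Set.range Sum.inl with hA
  have hno : ∀ a ∈ A, ∀ b ∉ A, ¬ (K ⊕g L).Adj a b := by
    rintro _ ⟨a, rfl⟩ b hb hab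
    rcases b with b | b
    · exact hb ⟨b, rfl⟩
    · simp at hab
  set S : Set W := {w | φ w ⊆ A} with hS
  have hSc : ∀ w ∈ Sᶜ, φ w ⊆ Aᶜ := by
    intro w hw
    rcases side hno (m1 w) with h | h
    · exact absurd h hw
    · exact h
  have hSno : ∀ a ∈ S, ∀ b ∉ S, ¬ H.Adj a b := by
    intro a ha b hb hab
    obtain ⟨x, hx, y, hy, hxy⟩ := m3 a b hab
    exact hno x (ha hx) y (hSc b hb hy) hxy
  have hmK : IsMinor (H.induce S) K := by
    refine h1.1 _ _ _ _ _ _ ?_ (left_minor K L)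
    rw [h1.2 _ _ (H.induce S) (K ⊕g L) A]
    exact ⟨fun w => φ w.1, fun w => w.2, fun w => m1 w.1,
      fun w w' hne => m2 w.1 w'.1 fun h => hne (Subtype.ext h), fun w w' h => m3 w.1 w'.1 h⟩
  have hmL : IsMinor (H.induce Sᶜ) L := by
    refine h1.1 _ _ _ _ _ _ ?_ (right_minor K L)
    rw [h1.2 _ _ (H.induce Sᶜ) (K ⊕g L) Aᶜ]
    exact ⟨fun w => φ w.1, fun w => hSc w.1 w.2, fun w => m1 w.1,
      fun w w' hne => m2 w.1 w'.1 fun h => hne (Subtype.ext h), fun w w' h => m3 w.1 w'.1 h⟩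
  by_cases hi1 : Nonempty (H.induce S ≃g K)
  · by_cases hi2 : Nonempty (H.induce Sᶜ ≃g L)
    · obtain ⟨e₁⟩ := hi1
      obtain ⟨e₂⟩ := hi2
      exact absurd (glue hSno e₁ e₂) hiso
    · -- the right side is planar
      have hpl : Planar (H.induce Sᶜ) := (hall _ _).2 hmL hi2
      have hmK' : IsMinor (H.induce Sᶜᶜ) K := by rw [compl_compl]; exact hmK
      exact half h1 h2 (S := Sᶜ) (fun a ha b hb hab => by
        rw [Set.notMem_compl_iff] at hb
        exact hSno b hb a ha hab.symm) hpl hmK' fun W' _ H' => (hall W' H').1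
  · have hpl : Planar (H.induce S) := (hall _ _).1 hmK hi1
    exact half h1 h2 hSno hpl hmL fun W' _ H' => (hall W' H').2

end Pool.Agent.Helper38.AJ
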